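import Pool.Agent.Helper6.AK.Inv

/-!
# Packet AKI-INV: the sign reversing involution
-/

set_option linter.unusedVariables false

namespace Pool.Agent.Helper23.AK

open Equiv Pool.Agent.Helper15.An Pool.Agent.Helper6.AK Finset

variable {n K r : ℕ}

theorem exq_exq (s : ℕ → Bool) (i : Fin r) (t₀ : ℕ) (p : Fin r × Bool) (t : ℕ) :
    exq s i t₀ (exq s i t₀ p t) t = p := by
  by_cases h : p.1 = i ∧ (t₀ < t ∨ (t₀ = t ∧ s t = false))
  · have h1 : exq s i t₀ p t = (p.1, !p.2) := by unfold exq; rw [if_pos h]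
    rw [h1]
    unfold exq
    rw [if_pos (by exact h)]
    simp
  · have h1 : exq s i t₀ p t = p := by unfold exq; rw [if_neg h]
    rw [h1, h1]

section
variable (T : ℕ) (c : Fin r × Bool → Fin n) (u : ℕ → Perm (Fin n)) (j : ℕ → Fin K) (s : ℕ → Bool)

/-- the pairs (time, index) at which both passes are single -/
def PS (x : Fin K → Perm (Fin n)) : Set (ℕ × Fin r) :=
  {a | a.1 < T ∧ ∀ e, ¬ Multi T c x u j s (a.2, e) a.1}

/-- the tails of the passes over the generator `l` -/
def TS (x : Fin K → Perm (Fin n)) (l : Fin K) : Set (Fin n) :=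
  {v | ∃ p t, t < T ∧ j t = l ∧ tl x u j s t (c p) = v}

/-- pairs of distinct points outside of a set -/
def GD (A : Set (Fin n)) : Set (Fin n × Fin n) := {a | a.1 ≠ a.2 ∧ a.1 ∉ A ∧ a.2 ∉ A}

end

theorem multi_ex {T : ℕ} {c : Fin r × Bool → Fin n} {u : ℕ → Perm (Fin n)} {j : ℕ → Fin K}
    {s : ℕ → Bool} {x x' : Fin K → Perm (Fin n)} {i : Fin r} {t₀ : ℕ}
    (htl : ∀ p t, t < T → tl x' u j s t (c p) = tl x u j s t (c (exq s i t₀ p t)))
    (p : Fin r × Bool) (t : ℕ) (ht : t < T) :
    Multi T c x' u j s p t ↔ Multi T c x u j s (exq s i t₀ p t) t := by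
  constructor
  · rintro ⟨q, t', ht', hne, hj, he⟩
    refine ⟨exq s i t₀ q t', t', ht', ?_, hj, ?_⟩
    · intro heq
      apply hne
      have h1 : t' = t := congrArg Prod.snd heq
      subst h1
      have h2 : exq s i t₀ q t' = exq s i t₀ p t' := congrArg Prod.fst heq
      have h3 := congrArg (fun a => exq s i t₀ a t') h2
      simp only [exq_exq] at h3
      rw [h3]
    · rw [← htl q t' ht', ← htl p t ht, he]
  · rintro ⟨q, t', ht', hne, hj, he⟩
    refine ⟨exq s i t₀ q t', t', ht', ?_, hj, ?_⟩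
    · intro heq
      apply hne
      have h1 : t' = t := congrArg Prod.snd heq
      subst h1
      have h2 : exq s i t₀ q t' = p := congrArg Prod.fst heq
      rw [← h2, exq_exq]
    · rw [htl _ t' ht', htl p t ht, exq_exq, he]

theorem PS_ex {T : ℕ} {c : Fin r × Bool → Fin n} {u : ℕ → Perm (Fin n)} {j : ℕ → Fin K}
    {s : ℕ → Bool} {x x' : Fin K → Perm (Fin n)} {i : Fin r} {t₀ : ℕ}
    (htl : ∀ p t, t < T → tl x' u j s t (c p) = tl x u j s t (c (exq s i t₀ p t))) :
    PS T c u j s x' = PS T c u j s x := by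
  ext ⟨t, i'⟩
  simp only [PS, Set.mem_ofPred_eq]
  refine and_congr_right (fun ht => ?_)
  have h0 : ∀ e, (¬ Multi T c x' u j s (i', e) t ↔
      ¬ Multi T c x u j s (exq s i t₀ (i', e) t) t) := fun e =>
    not_congr (multi_ex htl (i', e) t ht)
  by_cases h : i' = i ∧ (t₀ < t ∨ (t₀ = t ∧ s t = false))
  · have h1 : ∀ e, exq s i t₀ (i', e) t = (i', !e) := by
      intro e; unfold exq; rw [if_pos (by exact h)]
    simp only [h0, h1, Bool.forall_bool, Bool.not_false, Bool.not_true]
    exact and_comm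
  · have h1 : ∀ e, exq s i t₀ (i', e) t = (i', e) := by
      intro e; unfold exq; rw [if_neg (by exact h)]
    simp only [h0, h1]

theorem TS_ex {T : ℕ} {c : Fin r × Bool → Fin n} {u : ℕ → Perm (Fin n)} {j : ℕ → Fin K}
    {s : ℕ → Bool} {x x' : Fin K → Perm (Fin n)} {i : Fin r} {t₀ : ℕ}
    (htl : ∀ p t, t < T → tl x' u j s t (c p) = tl x u j s t (c (exq s i t₀ p t))) (l : Fin K) :
    TS T c u j s x' l = TS T c u j s x l := by
  ext v
  simp only [TS, Set.mem_ofPred_eq]
  constructor
  · rintro ⟨p, t, ht, hj, he⟩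
    exact ⟨exq s i t₀ p t, t, ht, hj, by rw [← htl p t ht, he]⟩
  · rintro ⟨p, t, ht, hj, he⟩
    exact ⟨exq s i t₀ p t, t, ht, hj, by rw [htl _ t ht, exq_exq, he]⟩

theorem GD_ne {T : ℕ} (hT : 2 * r * T + 2 ≤ n) (c : Fin r × Bool → Fin n)
    (u : ℕ → Perm (Fin n)) (j : ℕ → Fin K) (s : ℕ → Bool) (x : Fin K → Perm (Fin n))
    (l : Fin K) : (GD (TS T c u j s x l)).Nonempty := by
  classical
  set F : Finset (Fin n) := (Finset.univ : Finset ((Fin r × Bool) × Fin T)).image
    (fun a => tl x u j s a.2 (c a.1)) with hF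
  have hc1 : F.card ≤ 2 * r * T := by
    refine le_trans Finset.card_image_le ?_
    rw [Finset.card_univ, Fintype.card_prod, Fintype.card_prod, Fintype.card_fin,
      Fintype.card_fin, Fintype.card_bool]
    apply le_of_eq; ring
  have hc2 : 1 < (Fᶜ).card := by
    rw [Finset.card_compl, Fintype.card_fin]
    omega
  obtain ⟨a, ha, b, hb, hab⟩ := Finset.one_lt_card.mp hc2
  have hsub : ∀ v, v ∉ F → v ∉ TS T c u j s x l := by
    rintro v hv ⟨p, t, ht, hj, he⟩
    apply hv
    rw [hF, Finset.mem_image]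
    exact ⟨(p, ⟨t, ht⟩), Finset.mem_univ _, he⟩
  exact ⟨(a, b), hab, hsub a (Finset.mem_compl.mp ha), hsub b (Finset.mem_compl.mp hb)⟩

theorem tl_inj (x : Fin K → Perm (Fin n)) (u : ℕ → Perm (Fin n)) (j : ℕ → Fin K) (s : ℕ → Bool)
    (t : ℕ) : Function.Injective (tl x u j s t) := by
  intro v w h
  unfold tl at h
  by_cases hs : s t = true
  · rw [if_pos hs, if_pos hs] at h
    exact (zz x u j s t).injective ((u t).injective h)
  · rw [if_neg hs, if_neg hs] at h
    exact (zz x u j s (t + 1)).injective h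

theorem abs_Dd_le (c : Fin r × Bool → Fin n) (w : Perm (Fin n)) (i : Fin r) : |Dd c w i| ≤ 2 := by
  unfold Dd
  split_ifs <;> norm_num [abs_le]

/-- turn a permutation into an even one -/
noncomputable def toAlt (g : Perm (Fin n)) : Alt n :=
  open Classical in if h : g ∈ Alt n then ⟨g, h⟩ else 1

theorem toAlt_coe {g : Perm (Fin n)} (h : g ∈ Alt n) : ((toAlt g : Alt n) : Perm (Fin n)) = g := by
  unfold toAlt
  rw [dif_pos h]

theorem swap_swap_mem {α β γ δ : Fin n} (h1 : α ≠ β) (h2 : γ ≠ δ) :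
    (swap α β * swap γ δ) ∈ Alt n := by
  rw [Perm.mem_alternatingGroup, Perm.sign_mul, Perm.sign_swap h1, Perm.sign_swap h2]
  rfl

/-- the exchange -/
noncomputable def exch (c : Fin r × Bool → Fin n) (u : ℕ → Perm (Fin n)) (j : ℕ → Fin K)
    (s : ℕ → Bool) (x : Fin K → Alt n) (a : ℕ × Fin r) (g : Fin n × Fin n) : Fin K → Alt n :=
  Function.update x (j a.1) (x (j a.1) * toAlt (swap
    (tl (fun l => (x l : Perm (Fin n))) u j s a.1 (c (a.2, false)))
    (tl (fun l => (x l : Perm (Fin n))) u j s a.1 (c (a.2, true))) * swap g.1 g.2))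

theorem some_congr {α : Type*} {A B : Set α} (hA : A.Nonempty) (hB : B.Nonempty) (h : A = B) :
    hA.some = hB.some := by subst h; rfl

theorem notMM_iff (T : ℕ) (c : Fin r × Bool → Fin n) (x : Fin K → Perm (Fin n))
    (u : ℕ → Perm (Fin n)) (j : ℕ → Fin K) (s : ℕ → Bool) :
    ¬ MM T c x u j s ↔ (PS T c u j s x).Nonempty := by
  constructor
  · intro h
    unfold MM at h
    push Not at h
    obtain ⟨i, t, ht, he⟩ := h
    exact ⟨(t, i), ht, he⟩
  · rintro ⟨⟨t, i⟩, ht, he⟩ hM
    obtain ⟨e, hm⟩ := hM i t ht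
    exact he e hm

theorem exch_coe {T : ℕ} {c : Fin r × Bool → Fin n} (hc : Function.Injective c)
    (u : ℕ → Perm (Fin n)) (j : ℕ → Fin K) (s : ℕ → Bool) (x : Fin K → Alt n) (a : ℕ × Fin r)
    (g : Fin n × Fin n) (hg : g.1 ≠ g.2) :
    (fun l => (exch c u j s x a g l : Perm (Fin n))) =
      Function.update (fun l => (x l : Perm (Fin n))) (j a.1) ((x (j a.1) : Perm (Fin n)) *
        swap (tl (fun l => (x l : Perm (Fin n))) u j s a.1 (c (a.2, false)))
          (tl (fun l => (x l : Perm (Fin n))) u j s a.1 (c (a.2, true))) * swap g.1 g.2) := by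
  have hab : tl (fun l => (x l : Perm (Fin n))) u j s a.1 (c (a.2, false)) ≠
      tl (fun l => (x l : Perm (Fin n))) u j s a.1 (c (a.2, true)) := by
    intro h
    have h1 := hc (tl_inj _ u j s a.1 h)
    simp at h1
  funext l
  unfold exch
  by_cases hl : l = j a.1
  · subst hl
    rw [Function.update_self, Function.update_self, Subgroup.coe_mul,
      toAlt_coe (swap_swap_mem hab hg), mul_assoc]
  · rw [Function.update_of_ne hl, Function.update_of_ne hl]

/-- everything about the exchange -/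
theorem exch_all (htrj : S_TRJ) {T : ℕ} {c : Fin r × Bool → Fin n} (hc : Function.Injective c)
    (u : ℕ → Perm (Fin n)) (j : ℕ → Fin K) (s : ℕ → Bool) (x : Fin K → Alt n) (a : ℕ × Fin r)
    (g : Fin n × Fin n) (ha : a ∈ PS T c u j s (fun l => (x l : Perm (Fin n))))
    (hg : g ∈ GD (TS T c u j s (fun l => (x l : Perm (Fin n))) (j a.1))) :
    PS T c u j s (fun l => (exch c u j s x a g l : Perm (Fin n))) =
      PS T c u j s (fun l => (x l : Perm (Fin n))) ∧
    (∀ l, TS T c u j s (fun l => (exch c u j s x a g l : Perm (Fin n))) l =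
      TS T c u j s (fun l => (x l : Perm (Fin n))) l) ∧
    exch c u j s (exch c u j s x a g) a g = x ∧
    ∏ i, Dd c (u T * zz (fun l => (exch c u j s x a g l : Perm (Fin n))) u j s T) i =
      - ∏ i, Dd c (u T * zz (fun l => (x l : Perm (Fin n))) u j s T) i := by
  obtain ⟨t₀, i⟩ := a
  obtain ⟨γ, δ⟩ := g
  obtain ⟨ht₀, h1⟩ := ha
  obtain ⟨hgd, hγ, hδ⟩ := hg
  simp only at ht₀ h1 hgd hγ hδ
  have hcoe := exch_coe (T := T) hc u j s x (t₀, i) (γ, δ) hgd
  simp only at hcoe
  set X : Fin K → Perm (Fin n) := fun l => (x l : Perm (Fin n)) with hX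
  set y := exch c u j s x (t₀, i) (γ, δ) with hy
  set Y : Fin K → Perm (Fin n) := fun l => (y l : Perm (Fin n)) with hY
  set α := tl X u j s t₀ (c (i, false)) with hα
  set β := tl X u j s t₀ (c (i, true)) with hβ
  have hαβ : α ≠ β := by
    intro h
    have h2 := hc (tl_inj _ u j s t₀ h)
    simp at h2
  have hαm : α ∈ TS T c u j s X (j t₀) := ⟨_, t₀, ht₀, rfl, rfl⟩
  have hβm : β ∈ TS T c u j s X (j t₀) := ⟨_, t₀, ht₀, rfl, rfl⟩
  obtain ⟨r1, r2, r3, r4⟩ := htrj T c hc X u j s i t₀ ht₀ h1 γ δ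
    (fun p t ht hj he => hγ ⟨p, t, ht, hj, he⟩) (fun p t ht hj he => hδ ⟨p, t, ht, hj, he⟩)
    Y hcoe
  refine ⟨PS_ex r4, TS_ex r4, ?_, ?_⟩
  · -- involution
    have hcoe2 := exch_coe (T := T) hc u j s y (t₀, i) (γ, δ) hgd
    simp only at hcoe2
    have hsw : swap (tl Y u j s t₀ (c (i, false))) (tl Y u j s t₀ (c (i, true))) = swap α β := by
      rw [r4 _ t₀ ht₀, r4 _ t₀ ht₀]
      by_cases hs : s t₀ = false
      · have e1 : ∀ e, exq s i t₀ (i, e) t₀ = (i, !e) := by
          intro e; unfold exq; rw [if_pos]; exact ⟨rfl, Or.inr ⟨rfl, hs⟩⟩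
        rw [e1, e1]
        exact swap_comm _ _
      · have e1 : ∀ e, exq s i t₀ (i, e) t₀ = (i, e) := by
          intro e; unfold exq; rw [if_neg]
          rintro ⟨_, h | ⟨_, h⟩⟩
          · exact lt_irrefl _ h
          · exact hs h
        rw [e1, e1]
    have hdis : Perm.Disjoint (swap α β) (swap γ δ) := by
      apply Perm.disjoint_swap_swap
      have q1 : α ≠ γ := fun h => hγ (h ▸ hαm)
      have q2 : α ≠ δ := fun h => hδ (h ▸ hαm)
      have q3 : β ≠ γ := fun h => hγ (h ▸ hβm)
      have q4 : β ≠ δ := fun h => hδ (h ▸ hβm)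
      simp [hαβ, q1, q2, q3, q4, hgd]
    have hsq : swap α β * swap γ δ * (swap α β * swap γ δ) = 1 := by
      have hcm : swap α β * swap γ δ = swap γ δ * swap α β := hdis.commute.eq
      calc swap α β * swap γ δ * (swap α β * swap γ δ)
          = swap α β * swap γ δ * (swap γ δ * swap α β) :=
            congrArg (fun z => swap α β * swap γ δ * z) hcm
        _ = swap α β * (swap γ δ * (swap γ δ * swap α β)) := mul_assoc _ _ _
        _ = 1 := by rw [swap_mul_self_mul, swap_mul_self]
    have hfin : (fun l => (exch c u j s y (t₀, i) (γ, δ) l : Perm (Fin n))) = X := by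
      rw [hcoe2]
      change Function.update Y (j t₀) (Y (j t₀) * swap (tl Y u j s t₀ (c (i, false)))
        (tl Y u j s t₀ (c (i, true))) * swap γ δ) = X
      rw [hsw]
      have hYj : Y (j t₀) = X (j t₀) * swap α β * swap γ δ := by
        rw [hcoe, Function.update_self]
      funext l
      by_cases hl : l = j t₀
      · subst hl
        rw [Function.update_self, hYj]
        calc X (j t₀) * swap α β * swap γ δ * swap α β * swap γ δ
            = X (j t₀) * (swap α β * swap γ δ * (swap α β * swap γ δ)) := by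
              simp only [mul_assoc]
          _ = X (j t₀) := by rw [hsq, mul_one]
      · rw [Function.update_of_ne hl, hcoe, Function.update_of_ne hl]
    funext l
    exact Subtype.ext (congrFun hfin l)
  · -- the product
    have hw : ∀ p : Fin r × Bool, p.1 ≠ i → (u T * zz Y u j s T) (c p) =
        (u T * zz X u j s T) (c p) := by
      intro p hp
      rw [Perm.mul_apply, Perm.mul_apply, r2 p T ht₀ le_rfl hp]
    have hw2 : ∀ e, (u T * zz Y u j s T) (c (i, e)) = (u T * zz X u j s T) (c (i, !e)) := by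
      intro e
      rw [Perm.mul_apply, Perm.mul_apply, r3 e T ht₀ le_rfl]
    rw [← Finset.mul_prod_erase Finset.univ _ (Finset.mem_univ i),
      ← Finset.mul_prod_erase Finset.univ (fun i => Dd c (u T * zz X u j s T) i)
        (Finset.mem_univ i), ← neg_mul]
    congr 1
    · unfold Dd
      rw [hw2, hw2]
      simp only [Bool.not_false, Bool.not_true]
      ring
    · refine Finset.prod_congr rfl (fun k hk => ?_)
      have hki : k ≠ i := (Finset.mem_erase.mp hk).1
      unfold Dd
      rw [hw (k, false) hki, hw (k, true) hki]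

theorem thm (htrj : S_TRJ) : S_INV := by
  classical
  intro n K r T hT c hc u j s
  set f : (Fin K → Alt n) → ℝ := fun x =>
    ∏ i, Dd c (u T * zz (fun l => (x l : Perm (Fin n))) u j s T) i with hf
  set P : (Fin K → Alt n) → Prop := fun x => MM T c (fun l => (x l : Perm (Fin n))) u j s with hP
  have hsplit := Finset.sum_filter_add_sum_filter_not (Finset.univ : Finset (Fin K → Alt n)) P f
  have hA : ∀ x ∈ Finset.univ.filter (fun x => ¬ P x),
      (PS T c u j s (fun l => (x l : Perm (Fin n)))).Nonempty := by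
    intro x hx
    exact (notMM_iff T c _ u j s).mp (Finset.mem_filter.mp hx).2
  have hG : ∀ (x : Fin K → Alt n) (l : Fin K),
      (GD (TS T c u j s (fun l => (x l : Perm (Fin n))) l)).Nonempty :=
    fun x l => GD_ne hT c u j s _ l
  have hzero : ∑ x ∈ Finset.univ.filter (fun x => ¬ P x), f x = 0 := by
    have hex := fun (x : Fin K → Alt n) (hx : x ∈ Finset.univ.filter (fun x => ¬ P x)) =>
      exch_all htrj hc u j s x (hA x hx).some (hG x (j (hA x hx).some.1)).some
        (hA x hx).some_mem (hG x (j (hA x hx).some.1)).some_mem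
    have hmem : ∀ (x : Fin K → Alt n) (hx : x ∈ Finset.univ.filter (fun x => ¬ P x)),
        exch c u j s x (hA x hx).some (hG x (j (hA x hx).some.1)).some ∈
          Finset.univ.filter (fun x => ¬ P x) := by
      intro x hx
      rw [Finset.mem_filter]
      refine ⟨Finset.mem_univ _, ?_⟩
      rw [hP]
      simp only
      rw [notMM_iff, (hex x hx).1]
      exact hA x hx
    refine Finset.sum_involution (fun x hx =>
      exch c u j s x (hA x hx).some (hG x (j (hA x hx).some.1)).some) ?_ ?_ hmem ?_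
    · intro x hx
      rw [hf]
      simp only
      rw [(hex x hx).2.2.2]
      ring
    · intro x hx hne heq
      have h1 := (hex x hx).2.2.2
      rw [heq] at h1
      apply hne
      rw [hf]
      simp only
      linarith
    · intro x hx
      have e1 : (hA _ (hmem x hx)).some = (hA x hx).some :=
        some_congr _ _ (hex x hx).1
      have e2 : (hG (exch c u j s x (hA x hx).some (hG x (j (hA x hx).some.1)).some)
          (j (hA _ (hmem x hx)).some.1)).some = (hG x (j (hA x hx).some.1)).some := by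
        apply some_congr
        rw [e1, (hex x hx).2.1]
      rw [e2, e1]
      exact (hex x hx).2.2.1
  have hbound : |∑ x ∈ Finset.univ.filter P, f x| ≤
      2 ^ r * (Nat.card {x : Fin K → Alt n // P x} : ℝ) := by
    have hcard : (Nat.card {x : Fin K → Alt n // P x} : ℝ) =
        ((Finset.univ.filter P).card : ℝ) := by
      rw [Nat.card_eq_fintype_card, Fintype.card_subtype]
    rw [hcard]
    calc |∑ x ∈ Finset.univ.filter P, f x|
        ≤ ∑ x ∈ Finset.univ.filter P, |f x| := Finset.abs_sum_le_sum_abs _ _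
      _ ≤ ∑ x ∈ Finset.univ.filter P, (2 : ℝ) ^ r := by
          refine Finset.sum_le_sum (fun x _ => ?_)
          rw [hf]
          simp only
          rw [Finset.abs_prod]
          calc ∏ i, |Dd c (u T * zz (fun l => (x l : Perm (Fin n))) u j s T) i|
              ≤ ∏ _i : Fin r, (2 : ℝ) :=
                Finset.prod_le_prod (fun _ _ => abs_nonneg _) (fun i _ => abs_Dd_le c _ i)
            _ = 2 ^ r := by simp
      _ = 2 ^ r * ((Finset.univ.filter P).card : ℝ) := by
          rw [Finset.sum_const, nsmul_eq_mul]; ring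
  have hfull : ∑ x, f x = ∑ x ∈ Finset.univ.filter P, f x := by
    rw [← hsplit, hzero, add_zero]
  rw [hfull]
  exact hbound

end Pool.Agent.Helper23.AK
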