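import Pool.Agent.Helper3.AK.Goals1

/-!
# Packet AK-TR: the trace step
-/

namespace Pool.Agent.Helper3.AK

open Finset

variable {n r : ℕ}

theorem ip_pow (G : Fn n r →ₗ[ℝ] Fn n r) (hG : ∀ φ ψ, ip φ (G ψ) = ip (G φ) ψ) (q : ℕ) :
    ∀ φ ψ, ip φ ((G ^ q) ψ) = ip ((G ^ q) φ) ψ := by
  induction q with
  | zero => intro φ ψ; rfl
  | succ q ih =>
    intro φ ψ
    have h1 : (G ^ (q + 1)) ψ = G ((G ^ q) ψ) := by rw [pow_succ']; rfl
    have h2 : (G ^ (q + 1)) φ = (G ^ q) (G φ) := by rw [pow_succ]; rfl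
    rw [h1, h2, hG, ih]

theorem pow_eig (G : Fn n r →ₗ[ℝ] Fn n r) (f : Fn n r) (μ : ℝ) (h : G f = μ • f) (q : ℕ) :
    (G ^ q) f = μ ^ q • f := by
  induction q with
  | zero => simp
  | succ q ih =>
    have h1 : (G ^ (q + 1)) f = G ((G ^ q) f) := by rw [pow_succ']; rfl
    rw [h1, ih, map_smul, h, smul_smul, pow_succ]

theorem ip_sq_le (φ ψ : Fn n r) : (ip φ ψ) ^ 2 ≤ ip φ φ * ip ψ ψ := by
  have := Finset.sum_mul_sq_le_sq_mul_sq Finset.univ φ ψ
  simpa [ip, sq] using this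

theorem tr (h : S_FR) : S_TR := by
  intro n r hn G hG f hZ hf μ hμ q
  have hpos : 0 < ip f f := by
    have hne : ∃ a, f a ≠ 0 := by
      by_contra hcon
      push Not at hcon
      exact hf (funext hcon)
    obtain ⟨a, ha⟩ := hne
    unfold ip
    refine Finset.sum_pos' (fun i _ => mul_self_nonneg _) ⟨a, Finset.mem_univ _, ?_⟩
    exact mul_self_pos.mpr ha
  have key : ∀ t : Fn n r, μ ^ (2 * q) * (ip t f) ^ 2 ≤ ip t ((G ^ (2 * q)) t) * ip f f := by
    intro t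
    have e1 : ip ((G ^ q) t) f = μ ^ q * ip t f := by
      rw [← ip_pow G hG q t f, pow_eig G f μ hμ q]
      unfold ip
      rw [Finset.mul_sum]
      refine Finset.sum_congr rfl (fun a _ => ?_)
      simp only [Pi.smul_apply, smul_eq_mul]
      ring
    have e2 : ip t ((G ^ (2 * q)) t) = ip ((G ^ q) t) ((G ^ q) t) := by
      have h1 : (G ^ (2 * q)) t = (G ^ q) ((G ^ q) t) := by rw [two_mul, pow_add]; rfl
      rw [h1, ip_pow G hG q t ((G ^ q) t)]
    have h3 := ip_sq_le ((G ^ q) t) f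
    rw [e2]
    calc μ ^ (2 * q) * (ip t f) ^ 2 = (ip ((G ^ q) t) f) ^ 2 := by rw [e1]; ring
      _ ≤ _ := h3
  have hFR := h n r hn f hZ
  have hff : ∑ a, f a ^ 2 = ip f f := by
    unfold ip
    exact Finset.sum_congr rfl (fun a _ => by ring)
  rw [hff] at hFR
  have hsum : μ ^ (2 * q) * ∑ c : Pts n r, (ip (tst c) f) ^ 2 ≤
      (∑ c : Pts n r, ip (tst c) ((G ^ (2 * q)) (tst c))) * ip f f := by
    rw [Finset.mul_sum, Finset.sum_mul]
    exact Finset.sum_le_sum (fun c _ => key (tst c))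
  have hμ0 : 0 ≤ μ ^ (2 * q) := by rw [pow_mul]; positivity
  have h4 : (4 / 9) * ((n - r).descFactorial r : ℝ) * μ ^ (2 * q) * ip f f ≤
      (∑ c : Pts n r, ip (tst c) ((G ^ (2 * q)) (tst c))) * ip f f := by
    calc (4 / 9) * ((n - r).descFactorial r : ℝ) * μ ^ (2 * q) * ip f f
        = μ ^ (2 * q) * ((4 / 9) * ((n - r).descFactorial r : ℝ) * ip f f) := by ring
      _ ≤ μ ^ (2 * q) * ∑ c : Pts n r, (ip (tst c) f) ^ 2 := mul_le_mul_of_nonneg_left hFR hμ0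
      _ ≤ _ := hsum
  exact le_of_mul_le_mul_right h4 hpos

end Pool.Agent.Helper3.AK
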